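import Pool.Agent.Y794.DX.Gen
import Pool.Agent.TH923.DM.Pre

/-!
# Points with finite orbit, explicit bound
-/

set_option autoImplicit false

namespace Pool.Agent.Y794.DX

open Polynomial Pool.Agent.TH923.DM

universe u v

/-- Orbits of an affine additive map. -/
lemma preper_affineE {L : Type v} [Field L] (φ : L →+ L) (c : L) (B : ℕ)
    (hfin : {x : L | (Set.range (fun n : ℕ => (⇑φ)^[n] x)).Finite}.Finite)
    (hB : {x : L | (Set.range (fun n : ℕ => (⇑φ)^[n] x)).Finite}.ncard ≤ B) :
    {z : L | (Set.range fun n : ℕ => (fun x => c + φ x)^[n] z).Finite}.Finite ∧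
    {z : L | (Set.range fun n : ℕ => (fun x => c + φ x)^[n] z).Finite}.ncard ≤ B := by
  classical
  rcases Set.eq_empty_or_nonempty
    {z : L | (Set.range fun n : ℕ => (fun x => c + φ x)^[n] z).Finite} with h | ⟨z0, hz0⟩
  · rw [h]
    simp
  have key : ∀ (n : ℕ) (z : L), (fun x => c + φ x)^[n] z - (fun x => c + φ x)^[n] z0 =
      (⇑φ)^[n] (z - z0) := by
    intro n
    induction n with
    | zero => intro z; rfl
    | succ n ih =>
      intro z
      rw [Function.iterate_succ_apply', Function.iterate_succ_apply',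
        Function.iterate_succ_apply', ← ih z, map_sub]
      ring
  have hsub : {z : L | (Set.range fun n : ℕ => (fun x => c + φ x)^[n] z).Finite} ⊆
      (fun x => x + z0) '' {x : L | (Set.range (fun n : ℕ => (⇑φ)^[n] x)).Finite} := by
    intro z hz
    refine ⟨z - z0, ?_, by simp⟩
    have h1 : (Set.range fun n : ℕ => (⇑φ)^[n] (z - z0)) ⊆
        Set.image2 (fun a b => a - b) (Set.range fun n : ℕ => (fun x => c + φ x)^[n] z)
          (Set.range fun n : ℕ => (fun x => c + φ x)^[n] z0) := by
      rintro _ ⟨n, rfl⟩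
      exact ⟨_, ⟨n, rfl⟩, _, ⟨n, rfl⟩, key n z⟩
    exact (Set.Finite.image2 _ hz hz0).subset h1
  have hf2 := hfin.image fun x => x + z0
  exact ⟨hf2.subset hsub, (Set.ncard_le_ncard hsub hf2).trans ((Set.ncard_image_le hfin).trans hB)⟩

/-- The explicit bound for the maps `c + X x + g 1 x ^ q + ... + g r x ^ (q ^ r)`, `q = p ^ m`. -/
theorem preper_bound_all (p m r d : ℕ) (hp : p.Prime) (hm : 0 < m) (hr : 1 ≤ r) (k : Type u)
    [Field k] [CharP k p] (L : Type v) [Field L] [Algebra (RatFunc k) L]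
    [FiniteDimensional (RatFunc k) L] (hd : Module.finrank (RatFunc k) L ≤ d) (c : L) (g : ℕ → L)
    (hg : g r ≠ 0) :
    {z : L | (Set.range fun n : ℕ => (fun x => c + (algebraMap (RatFunc k) L RatFunc.X * x +
      ∑ i ∈ Finset.Icc 1 r, g i * x ^ ((p ^ m) ^ i)))^[n] z).Finite}.Finite ∧
    {z : L | (Set.range fun n : ℕ => (fun x => c + (algebraMap (RatFunc k) L RatFunc.X * x +
      ∑ i ∈ Finset.Icc 1 r, g i * x ^ ((p ^ m) ^ i)))^[n] z).Finite}.ncard ≤
      p ^ NN (m * r) d.factorial d := by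
  classical
  haveI : Fact p.Prime := ⟨hp⟩
  haveI : CharP (RatFunc k) p :=
    charP_of_injective_algebraMap (algebraMap k (RatFunc k)).injective p
  haveI : CharP L p := charP_of_injective_algebraMap (algebraMap (RatFunc k) L).injective p
  letI : Algebra (ZMod p) L := ZMod.algebra L p
  set g' : ℕ → L := fun j => if j = 0 then algebraMap (RatFunc k) L RatFunc.X else
      if m ∣ j then g (j / m) else 0 with hg'
  have hg'0 : g' 0 = algebraMap (RatFunc k) L RatFunc.X := by simp [hg']
  have hg'r : g' (m * r) ≠ 0 := by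
    have h1 : m * r ≠ 0 := (Nat.mul_pos hm hr).ne'
    simp only [hg', if_neg h1, if_pos (Dvd.intro r rfl : m ∣ m * r),
      Nat.mul_div_cancel_left _ hm]
    exact hg
  have h1 := genE_all.{u, v} p (m * r) d (Nat.mul_pos hm hr) k L hd g' hg'0 hg'r
  obtain ⟨h2, h3⟩ := preper_bound p (evL p g' (m * r)) _ (fun M _ hM => h1 M hM)
  have h4 := preper_affineE (evL p g' (m * r)).toAddMonoidHom c _ h2 h3
  have h5 : (fun x => c + (algebraMap (RatFunc k) L RatFunc.X * x +
      ∑ i ∈ Finset.Icc 1 r, g i * x ^ ((p ^ m) ^ i))) =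
      (fun x => c + (evL p g' (m * r)).toAddMonoidHom x) := by
    funext x
    congr 1
    show _ = ev p g' (m * r) x
    unfold ev
    rw [Finset.sum_range_succ', hg']
    beta_reduce
    rw [if_pos rfl, pow_zero, pow_one, add_comm]
    congr 1
    have h1 : ∑ i ∈ Finset.range (m * r), (if i + 1 = 0 then algebraMap (RatFunc k) L RatFunc.X
        else if m ∣ i + 1 then g ((i + 1) / m) else 0) * x ^ (p ^ (i + 1)) =
        ∑ j ∈ Finset.Icc 1 (m * r), (if m ∣ j then g (j / m) else 0) * x ^ (p ^ j) := by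
      rw [Finset.range_eq_Ico, Finset.sum_Ico_add' (fun j => (if j = 0 then
        algebraMap (RatFunc k) L RatFunc.X
        else if m ∣ j then g (j / m) else 0) * x ^ (p ^ j)) 0 (m * r) 1]
      have h2 : Finset.Ico (0 + 1) (m * r + 1) = Finset.Icc 1 (m * r) := by
        ext j
        simp only [Finset.mem_Ico, Finset.mem_Icc]
        omega
      rw [h2]
      refine Finset.sum_congr rfl fun j hj => ?_
      rw [Finset.mem_Icc] at hj
      rw [if_neg (by omega)]
    rw [h1]
    have h3 : ∑ i ∈ Finset.Icc 1 r, g i * x ^ ((p ^ m) ^ i) =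
        ∑ j ∈ (Finset.Icc 1 r).image (fun i => m * i),
          (if m ∣ j then g (j / m) else 0) * x ^ (p ^ j) := by
      rw [Finset.sum_image (by
        intro a _ b _ hab
        exact Nat.eq_of_mul_eq_mul_left hm hab)]
      refine Finset.sum_congr rfl fun i _ => ?_
      rw [if_pos (Dvd.intro _ rfl), Nat.mul_div_cancel_left _ hm, ← pow_mul]
    rw [h3]
    apply Finset.sum_subset
    · intro j hj
      obtain ⟨i, hi, rfl⟩ := Finset.mem_image.1 hj
      rw [Finset.mem_Icc] at hi ⊢
      exact ⟨Nat.mul_pos hm hi.1, Nat.mul_le_mul_left _ hi.2⟩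
    · intro j hj hj2
      rw [if_neg, zero_mul]
      rintro ⟨i, rfl⟩
      apply hj2
      rw [Finset.mem_Icc] at hj
      refine Finset.mem_image.2 ⟨i, ?_, rfl⟩
      rw [Finset.mem_Icc]
      refine ⟨?_, Nat.le_of_mul_le_mul_left hj.2 hm⟩
      rcases Nat.eq_zero_or_pos i with rfl | hi
      · simp at hj
      · exact hi
  rw [h5]
  exact h4

end Pool.Agent.Y794.DX
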