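import Pool.Agent.Y794.DX.Gen
import Pool.Agent.TH923.DM.Pre

/-!
# Points of bounded degree with finite orbit under affine additive maps
-/

set_option autoImplicit false

namespace Pool.Agent.Y794.DX

open Polynomial Pool.Agent.TH923.DM

universe u1 u2 u3

/-- Bound for stable spaces over a finite extension `E` of `L`, `[L : k(θ)] ≤ m`. -/
theorem dim_bound (p r m D : ℕ) [Fact p.Prime] (hr : 1 ≤ r) (k : Type u1) (L : Type u2) [Field k]
    [CharP k p] [Field L] [Algebra k L] (θ : L) (hθ : Transcendental k θ)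
    [FiniteDimensional (IntermediateField.adjoin k {θ}) L]
    (hm : Module.finrank (IntermediateField.adjoin k {θ}) L ≤ m) (E : Type u3) [Field E]
    [Algebra L E] [FiniteDimensional L E] (hD : Module.finrank L E ≤ D) [CharP E p]
    [Algebra (ZMod p) E] (g : ℕ → E) (hg0 : g 0 = algebraMap L E θ) (hg : g r ≠ 0)
    (M : Submodule (ZMod p) E) [FiniteDimensional (ZMod p) M] (hM : ∀ x ∈ M, ev p g r x ∈ M) :
    Module.finrank (ZMod p) M ≤ NN r (m * D).factorial (m * D) := by
  classical
  let e := RatFunc.algEquivOfTranscendental θ hθ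
  have : FiniteDimensional (IntermediateField.adjoin k {θ}) E := FiniteDimensional.trans _ L E
  let iB : Algebra (RatFunc k) E :=
    ((algebraMap (IntermediateField.adjoin k {θ}) E).comp (e : RatFunc k →+* _)).toAlgebra
  have hrank : Module.finrank (RatFunc k) E =
      Module.finrank (IntermediateField.adjoin k {θ}) E := by
    apply Algebra.finrank_eq_of_equiv_equiv (e : RatFunc k ≃+* _) (RingEquiv.refl E)
    ext x
    rfl
  have : FiniteDimensional (RatFunc k) E := by
    apply FiniteDimensional.of_finrank_pos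
    rw [hrank]
    exact Module.finrank_pos
  have hX : algebraMap (RatFunc k) E RatFunc.X = algebraMap L E θ := by
    show algebraMap L E ((e RatFunc.X : IntermediateField.adjoin k {θ}) : L) = _
    rw [RatFunc.algEquivOfTranscendental_X]
  have hle : Module.finrank (RatFunc k) E ≤ m * D := by
    rw [hrank, ← Module.finrank_mul_finrank (IntermediateField.adjoin k {θ}) L E]
    exact Nat.mul_le_mul hm hD
  exact genE_all.{u1, u3} p r (m * D) hr k E hle g (by rw [hX, hg0]) hg M hM

section

variable (p : ℕ) [Fact p.Prime] {U : Type u2} [Field U] [CharP U p] [Algebra (ZMod p) U]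

/-- A point with finite orbit satisfies a relation of bounded length. -/
lemma exists_rel {E : Type u3} [Field E] [CharP E p] [Algebra (ZMod p) E] (g : ℕ → E) (r N : ℕ)
    (hN : ∀ (M : Submodule (ZMod p) E) [FiniteDimensional (ZMod p) M],
      (∀ x ∈ M, ev p g r x ∈ M) → Module.finrank (ZMod p) M ≤ N)
    (y : E) (hy : (Set.range fun n : ℕ => (ev p g r)^[n] y).Finite) :
    ∃ c : Fin (N + 1) → ZMod p, c ≠ 0 ∧ ∑ j, c j • (ev p g r)^[(j : ℕ)] y = 0 := by
  classical
  set f : E →ₗ[ZMod p] E := evL p g r with hf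
  have hfe : (⇑f : E → E) = ev p g r := rfl
  set M : Submodule (ZMod p) E := Submodule.span (ZMod p)
    (Set.range fun n : ℕ => (ev p g r)^[n] y) with hMdef
  have : FiniteDimensional (ZMod p) M := FiniteDimensional.span_of_finite _ hy
  have hstab : ∀ x ∈ M, ev p g r x ∈ M := by
    intro x hx
    have h1 : M ≤ M.comap f := by
      rw [hMdef, Submodule.span_le]
      rintro _ ⟨n, rfl⟩
      show ev p g r ((ev p g r)^[n] y) ∈ Submodule.span (ZMod p) _
      rw [← Function.iterate_succ_apply' (ev p g r) n y]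
      exact Submodule.subset_span ⟨n + 1, rfl⟩
    exact h1 hx
  have hd := hN M hstab
  let w : Fin (N + 1) → M := fun j => ⟨(ev p g r)^[(j : ℕ)] y, Submodule.subset_span ⟨j, rfl⟩⟩
  have hnl : ¬ LinearIndependent (ZMod p) w := by
    intro h
    have h2 := h.fintype_card_le_finrank
    rw [Fintype.card_fin] at h2
    omega
  rw [Fintype.not_linearIndependent_iff] at hnl
  obtain ⟨c, hc, i, hi⟩ := hnl
  refine ⟨c, fun h => hi (by rw [h]; rfl), ?_⟩
  have h3 := congrArg (Submodule.subtype M) hc
  rw [map_sum, map_zero] at h3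
  exact h3

/-- the polynomial of an additive map -/
noncomputable def apol (g : ℕ → U) (r : ℕ) : U[X] :=
  ∑ i ∈ Finset.range (r + 1), C (g i) * X ^ (p ^ i)

omit [Fact p.Prime] [CharP U p] [Algebra (ZMod p) U] in
lemma apol_eval (g : ℕ → U) (r : ℕ) (x : U) : (apol p g r).eval x = ev p g r x := by
  unfold apol ev
  rw [eval_finset_sum]
  simp

omit [CharP U p] [Algebra (ZMod p) U] in
lemma apol_natDegree (g : ℕ → U) (r : ℕ) (hg : g r ≠ 0) : (apol p g r).natDegree = p ^ r := by
  have hp : 1 < p := (Fact.out : p.Prime).one_lt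
  apply le_antisymm
  · unfold apol
    apply natDegree_sum_le_of_forall_le
    intro i hi
    refine (natDegree_C_mul_X_pow_le _ _).trans ?_
    exact Nat.pow_le_pow_right (by omega) (by have := Finset.mem_range.1 hi; omega)
  · apply le_natDegree_of_ne_zero
    unfold apol
    rw [finset_sum_coeff, Finset.sum_eq_single r]
    · rw [coeff_C_mul_X_pow, if_pos rfl]
      exact hg
    · intro i _ hir
      rw [coeff_C_mul_X_pow, if_neg]
      intro h
      exact hir (Nat.pow_right_injective hp h).symm
    · intro h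
      exact absurd (Finset.mem_range.2 (by omega)) h

/-- the polynomial `∑ c j ℓ^j` -/
noncomputable def cpol (g : ℕ → U) (r N : ℕ) (c : Fin (N + 1) → ZMod p) : U[X] :=
  ∑ j : Fin (N + 1), C (algebraMap (ZMod p) U (c j)) * ((apol p g r).comp)^[(j : ℕ)] X

lemma cpol_eval (g : ℕ → U) (r N : ℕ) (c : Fin (N + 1) → ZMod p) (x : U) :
    (cpol p g r N c).eval x = ∑ j, c j • (ev p g r)^[(j : ℕ)] x := by
  unfold cpol
  rw [eval_finset_sum]
  refine Finset.sum_congr rfl fun j _ => ?_
  rw [eval_mul, eval_C, iterate_comp_eval, eval_X, Algebra.smul_def]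
  congr 2
  funext y
  rw [apol_eval]

lemma it_natDegree (g : ℕ → U) (r : ℕ) (hg : g r ≠ 0) (j : ℕ) :
    (((apol p g r).comp)^[j] X : U[X]).natDegree = (p ^ r) ^ j := by
  rw [natDegree_iterate_comp, apol_natDegree p g r hg, natDegree_X, mul_one]

lemma cpol_ne (g : ℕ → U) (r N : ℕ) (hr : 1 ≤ r) (hg : g r ≠ 0) (c : Fin (N + 1) → ZMod p)
    (hc : c ≠ 0) : cpol p g r N c ≠ 0 := by
  classical
  have hp : 1 < p := (Fact.out : p.Prime).one_lt
  have hpr : 1 < p ^ r := Nat.one_lt_pow (by omega) hp
  obtain ⟨i, hi⟩ : ∃ i, c i ≠ 0 := by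
    by_contra h
    push Not at h
    exact hc (funext h)
  obtain ⟨j0, hj0, hmax⟩ := Finset.exists_max_image (Finset.univ.filter fun j => c j ≠ 0)
    (fun j => (j : ℕ)) ⟨i, by simpa using hi⟩
  have hcj0 : c j0 ≠ 0 := (Finset.mem_filter.1 hj0).2
  intro h0
  have h1 : (cpol p g r N c).coeff ((p ^ r) ^ (j0 : ℕ)) = 0 := by rw [h0, coeff_zero]
  unfold cpol at h1
  rw [finset_sum_coeff, Finset.sum_eq_single j0] at h1
  · rw [coeff_C_mul] at h1
    have h2 : algebraMap (ZMod p) U (c j0) ≠ 0 := by
      rw [Ne, map_eq_zero_iff _ (algebraMap (ZMod p) U).injective]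
      exact hcj0
    have h3 : (((apol p g r).comp)^[(j0 : ℕ)] X : U[X]).coeff ((p ^ r) ^ (j0 : ℕ)) ≠ 0 := by
      rw [← it_natDegree p g r hg, coeff_natDegree]
      apply leadingCoeff_ne_zero.2
      intro h
      have h4 := it_natDegree p g r hg (j0 : ℕ)
      rw [h, natDegree_zero] at h4
      exact absurd h4.symm (pow_ne_zero _ (by omega))
    exact (mul_ne_zero h2 h3) h1
  · intro j _ hj
    rw [coeff_C_mul]
    by_cases hcj : c j = 0
    · rw [hcj, map_zero, zero_mul]
    · have h5 : (j : ℕ) ≤ j0 := hmax j (by simpa using hcj)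
      have h6 : (j : ℕ) < j0 := lt_of_le_of_ne h5 fun h => hj (Fin.ext h)
      rw [coeff_eq_zero_of_natDegree_lt, mul_zero]
      rw [it_natDegree p g r hg]
      exact Nat.pow_lt_pow_right hpr h6
  · intro h
    exact absurd (Finset.mem_univ _) h

lemma cpol_natDegree (g : ℕ → U) (r N : ℕ) (hg : g r ≠ 0) (c : Fin (N + 1) → ZMod p) :
    (cpol p g r N c).natDegree ≤ p ^ (r * N) := by
  have hp : 1 < p := (Fact.out : p.Prime).one_lt
  unfold cpol
  apply natDegree_sum_le_of_forall_le
  intro j _
  refine (natDegree_C_mul_le _ _).trans ?_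
  rw [it_natDegree p g r hg, pow_mul]
  exact Nat.pow_le_pow_right (Nat.pow_pos (by omega)) (by omega)

/-- The number of points satisfying some relation of bounded length. -/
lemma rel_count (g : ℕ → U) (r N : ℕ) (hr : 1 ≤ r) (hg : g r ≠ 0) :
    {y : U | ∃ c : Fin (N + 1) → ZMod p, c ≠ 0 ∧
      ∑ j, c j • (ev p g r)^[(j : ℕ)] y = 0}.Finite ∧
    {y : U | ∃ c : Fin (N + 1) → ZMod p, c ≠ 0 ∧
      ∑ j, c j • (ev p g r)^[(j : ℕ)] y = 0}.ncard ≤ p ^ (N + 1) * p ^ (r * N) := by
  classical
  set T : Finset U := (Finset.univ.filter fun c : Fin (N + 1) → ZMod p => c ≠ 0).biUnion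
    fun c => (cpol p g r N c).roots.toFinset with hT
  have hsub : {y : U | ∃ c : Fin (N + 1) → ZMod p, c ≠ 0 ∧
      ∑ j, c j • (ev p g r)^[(j : ℕ)] y = 0} ⊆ (T : Set U) := by
    rintro y ⟨c, hc, hy⟩
    rw [Finset.mem_coe, hT, Finset.mem_biUnion]
    refine ⟨c, by simpa using hc, ?_⟩
    rw [Multiset.mem_toFinset, mem_roots (cpol_ne p g r N hr hg c hc), IsRoot.def, cpol_eval]
    exact hy
  have hcard : T.card ≤ p ^ (N + 1) * p ^ (r * N) := by
    rw [hT]
    refine (Finset.card_biUnion_le_card_mul _ _ (p ^ (r * N)) ?_).trans ?_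
    · intro c _
      refine (Multiset.toFinset_card_le _).trans ((card_roots' _).trans ?_)
      exact cpol_natDegree p g r N hg c
    · refine Nat.mul_le_mul_right _ ((Finset.card_filter_le _ _).trans ?_)
      rw [Finset.card_univ, Fintype.card_fun, Fintype.card_fin, ZMod.card]
  refine ⟨T.finite_toSet.subset hsub, ?_⟩
  refine (Set.ncard_le_ncard hsub T.finite_toSet).trans ?_
  rw [Set.ncard_coe_finset]
  exact hcard

end

/-- The element `x` lies in a subfield of degree at most `D` over `L`. -/
def DegLe (L : Type u1) {U : Type u2} [Field L] [Field U] [Algebra L U] (D : ℕ) (x : U) : Prop :=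
  ∃ F : IntermediateField L U, x ∈ F ∧ FiniteDimensional L F ∧ Module.finrank L F ≤ D

/-- Points of degree at most `D` with finite orbit under an affine additive map with coefficients
in an extension `L` of degree at most `D0`. -/
theorem pts_bound (p r m D D0 N : ℕ) (hp : p.Prime) (hr : 1 ≤ r)
    (hNdef : N = NN r (m * (D * D * D0)).factorial (m * (D * D * D0)))
    (k : Type u1) (K : Type u2) [Field k] [CharP k p] [Field K] [Algebra k K] (θ : K)
    (hθ : Transcendental k θ) [FiniteDimensional (IntermediateField.adjoin k {θ}) K]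
    (hm : Module.finrank (IntermediateField.adjoin k {θ}) K ≤ m) (U : Type u3) [Field U]
    [Algebra K U] (L : IntermediateField K U) [FiniteDimensional K L]
    (hL : Module.finrank K L ≤ D0) (c : U) (g : ℕ → L) (hg : g r ≠ 0) (φ : U → U)
    (hφ : ∀ x, φ x = c + (algebraMap K U θ * x +
      ∑ i ∈ Finset.Icc 1 r, (g i : U) * x ^ p ^ i)) :
    {z : U | DegLe K D z ∧ (Set.range fun n : ℕ => φ^[n] z).Finite}.Finite ∧
    {z : U | DegLe K D z ∧ (Set.range fun n : ℕ => φ^[n] z).Finite}.ncard ≤
      p ^ (N + 1) * p ^ (r * N) := by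
  classical
  have : Fact p.Prime := ⟨hp⟩
  have hKp : CharP K p := charP_of_injective_algebraMap (algebraMap k K).injective p
  have hUp : CharP U p := charP_of_injective_algebraMap (algebraMap K U).injective p
  let _iU : Algebra (ZMod p) U := ZMod.algebra U p
  -- coefficients
  obtain ⟨G, hG⟩ : ∃ G : ℕ → U, G = fun j => if j = 0 then algebraMap K U θ else (g j : U) :=
    ⟨_, rfl⟩
  have hG0 : G 0 = algebraMap K U θ := by rw [hG]; rfl
  have hGr : G r ≠ 0 := by
    rw [hG]
    show (if r = 0 then algebraMap K U θ else (g r : U)) ≠ 0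
    rw [if_neg (by omega)]
    intro h
    exact hg (Subtype.ext h)
  have hGL : ∀ j, G j ∈ L := by
    intro j
    rw [hG]
    show (if j = 0 then algebraMap K U θ else (g j : U)) ∈ L
    split_ifs
    · exact L.algebraMap_mem θ
    · exact (g j).2
  have hφ' : ∀ x, φ x = c + ev p G r x := by
    intro x
    rw [hφ]
    congr 1
    unfold ev
    rw [Finset.sum_range_succ', add_comm]
    congr 1
    · have h6 : Finset.Icc 1 r = (Finset.range r).map ⟨fun i => i + 1, add_left_injective 1⟩ := by
        ext j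
        simp only [Finset.mem_Icc, Finset.mem_map, Finset.mem_range, Function.Embedding.coeFn_mk]
        constructor
        · rintro ⟨hj1, hj2⟩
          exact ⟨j - 1, by omega, by omega⟩
        · rintro ⟨i, hi, rfl⟩
          omega
      rw [h6, Finset.sum_map]
      refine Finset.sum_congr rfl fun i _ => ?_
      simp [hG]
    · simp [hG0]
  obtain ⟨Y, hY⟩ : ∃ Y : Set U, Y = {y : U | ∃ c : Fin (N + 1) → ZMod p, c ≠ 0 ∧
    ∑ j, c j • (ev p G r)^[(j : ℕ)] y = 0} := ⟨_, rfl⟩
  obtain ⟨hYf, hYc⟩ := rel_count p G r N hr hGr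
  rw [← hY] at hYf hYc
  rcases Set.eq_empty_or_nonempty
    {z : U | DegLe K D z ∧ (Set.range fun n : ℕ => φ^[n] z).Finite} with h | ⟨z0, hz0d, hz0⟩
  · rw [h]
    simp
  have key : ∀ (n : ℕ) (z : U), φ^[n] z - φ^[n] z0 = (ev p G r)^[n] (z - z0) := by
    intro n
    induction n with
    | zero => intro z; rfl
    | succ n ih =>
      intro z
      rw [Function.iterate_succ_apply', Function.iterate_succ_apply',
        Function.iterate_succ_apply', ← ih z, hφ', hφ',
        ← evL_apply p _ r (φ^[n] z - φ^[n] z0), map_sub, evL_apply, evL_apply]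
      ring
  have hsub : {z : U | DegLe K D z ∧ (Set.range fun n : ℕ => φ^[n] z).Finite} ⊆
      (fun x => x + z0) '' Y := by
    rintro z ⟨⟨F, hzF, hFf, hFd⟩, hz⟩
    obtain ⟨F0, hz0F, hF0f, hF0d⟩ := hz0d
    refine ⟨z - z0, ?_, by simp⟩
    have horb : (Set.range fun n : ℕ => (ev p G r)^[n] (z - z0)).Finite := by
      have h1 : (Set.range fun n : ℕ => (ev p G r)^[n] (z - z0)) ⊆
          Set.image2 (fun a b => a - b) (Set.range fun n : ℕ => φ^[n] z)
            (Set.range fun n : ℕ => φ^[n] z0) := by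
        rintro _ ⟨n, rfl⟩
        exact ⟨_, ⟨n, rfl⟩, _, ⟨n, rfl⟩, key n z⟩
      exact (Set.Finite.image2 _ hz hz0).subset h1
    -- the field
    obtain ⟨E, hE⟩ : ∃ E : IntermediateField K U, E = F ⊔ F0 ⊔ L := ⟨_, rfl⟩
    have hEf : FiniteDimensional K E := by rw [hE]; infer_instance
    have hEd : Module.finrank K E ≤ D * D * D0 := by
      rw [hE]
      exact (IntermediateField.finrank_sup_le _ L).trans (Nat.mul_le_mul
        ((IntermediateField.finrank_sup_le F F0).trans (Nat.mul_le_mul hFd hF0d)) hL)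
    have hFE : F ≤ E := by rw [hE]; exact le_sup_left.trans le_sup_left
    have hF0E : F0 ≤ E := by rw [hE]; exact le_sup_right.trans le_sup_left
    have hLE : L ≤ E := by rw [hE]; exact le_sup_right
    have hEp : CharP E p := charP_of_injective_algebraMap (algebraMap K E).injective p
    let _iE : Algebra (ZMod p) E := ZMod.algebra E p
    have hyE : z - z0 ∈ E := E.sub_mem (hFE hzF) (hF0E hz0F)
    obtain ⟨GE, hGE⟩ : ∃ GE : ℕ → E, ∀ j, (GE j : U) = G j :=
      ⟨fun j => ⟨G j, hLE (hGL j)⟩, fun j => rfl⟩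
    have hev : ∀ x : E, ((ev p GE r x : E) : U) = ev p G r (x : U) := by
      intro x
      show algebraMap E U _ = _
      unfold ev
      rw [map_sum]
      refine Finset.sum_congr rfl fun i _ => ?_
      rw [map_mul, map_pow, ← hGE]
      rfl
    have hit : ∀ (n : ℕ) (x : E), (((ev p GE r)^[n] x : E) : U) = (ev p G r)^[n] (x : U) := by
      intro n
      induction n with
      | zero => intro x; rfl
      | succ n ih =>
        intro x
        rw [Function.iterate_succ_apply', Function.iterate_succ_apply', hev, ih]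
    have hfinE : (Set.range fun n : ℕ => (ev p GE r)^[n] (⟨z - z0, hyE⟩ : E)).Finite := by
      have hinj : Function.Injective (fun x : E => (x : U)) := Subtype.val_injective
      refine Set.Finite.of_finite_image (f := fun x : E => (x : U)) ?_ hinj.injOn
      refine horb.subset ?_
      rintro _ ⟨_, ⟨n, rfl⟩, rfl⟩
      exact ⟨n, (hit n ⟨z - z0, hyE⟩).symm⟩
    obtain ⟨a, ha, hrel⟩ := exists_rel p GE r N (by
      intro M _ hM
      rw [hNdef]
      exact dim_bound p r m (D * D * D0) hr k K θ hθ hm E hEd GE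
        (by apply Subtype.ext; rw [hGE, hG0]; rfl) (by
          intro h
          apply hGr
          rw [← hGE, h]
          rfl) M hM) _ hfinE
    rw [hY]
    refine ⟨a, ha, ?_⟩
    have h7 := congrArg (algebraMap E U) hrel
    rw [map_sum, map_zero] at h7
    rw [← h7]
    refine Finset.sum_congr rfl fun j _ => ?_
    rw [Algebra.smul_def, Algebra.smul_def, map_mul]
    congr 1
    · have h8 : ((algebraMap E U).comp (algebraMap (ZMod p) E)) = algebraMap (ZMod p) U :=
        Subsingleton.elim _ _
      rw [← h8]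
      rfl
    · exact (hit (j : ℕ) ⟨z - z0, hyE⟩).symm
  have hf2 := hYf.image fun x => x + z0
  exact ⟨hf2.subset hsub, (Set.ncard_le_ncard hsub hf2).trans ((Set.ncard_image_le hYf).trans hYc)⟩

end Pool.Agent.Y794.DX
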