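import Mathlib

/-!
# Explicit parameters
-/

set_option autoImplicit false

namespace Pool.Agent.Y794.DX

/-- the explicit bound -/
def NN (r n s : ℕ) : ℕ := (9 * 2 ^ n * (r + 3) * (r + s + n * n + 1)) ^ 2

lemma NN_mono {r n s s' : ℕ} (h : s ≤ s') : NN r n s ≤ NN r n s' := by
  unfold NN
  gcongr

lemma r_le_NN (r n s : ℕ) : r ≤ NN r n s := by
  unfold NN
  have h1 : 1 ≤ 2 ^ n := Nat.one_le_two_pow
  have h2 : r ≤ 9 * 2 ^ n * (r + 3) * (r + s + n * n + 1) := by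
    calc r ≤ 1 * 1 * (r + 3) * 1 := by omega
      _ ≤ 9 * 2 ^ n * (r + 3) * (r + s + n * n + 1) := by
        gcongr <;> omega
  exact h2.trans (Nat.le_self_pow two_ne_zero _)

lemma two_mul_le_pow (W : ℕ) (hW : 1 ≤ W) : 2 * W ≤ 2 ^ W := by
  induction W with
  | zero => omega
  | succ W ih =>
    rcases Nat.eq_zero_or_pos W with rfl | h
    · norm_num
    · have := ih h
      rw [pow_succ]
      have : 2 ≤ 2 ^ W := by
        calc 2 = 2 ^ 1 := by norm_num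
          _ ≤ 2 ^ W := Nat.pow_le_pow_right (by norm_num) h
      omega

lemma params_E (p n r s : ℕ) (hp : 2 ≤ p) (hr : 1 ≤ r) (t1 S1 : ℕ)
    (ht1 : t1 = 2 * (r + s + n * n)) (hS1 : S1 = p ^ (t1 + 1) * (t1 * p ^ s) * (n * n)) :
    ∃ b2 J1 b r' A : ℕ, n + 3 ≤ p ^ b2 ∧ J1 = 1 + S1 * p ^ t1 + (n * n) * p ^ b2 ∧
      b2 ≤ b ∧ 2 * (n + 2 * (n + 1) * J1 + 1) ≤ p ^ b ∧ 1 + (n * n) * p ^ r ≤ p ^ r' ∧
      2 * b ≤ A ∧ 2 * (n + 1) * J1 ≤ p ^ (A - b) ∧ b + r' ≤ A ∧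
      (r - 1) * (b + r' + 1) ≤ A - (b + r') ∧ r ≤ A - b2 ∧ 2 * J1 ≤ p ^ A ∧ 1 ≤ A ∧ b < A ∧
      b2 ≤ A ∧ (2 ^ n * (A + b + r) + r + 2) ^ 2 ≤ NN r n s ∧ n * A + 1 ≤ NN r n s := by
  obtain ⟨W, hW⟩ : ∃ W, W = r + s + n * n := ⟨_, rfl⟩
  have hW1 : 1 ≤ W := by omega
  have hnn : n ≤ n * n := by
    rcases Nat.eq_zero_or_pos n with rfl | h
    · simp
    · exact Nat.le_mul_of_pos_left _ h
  have hnW : n * n ≤ W := by omega
  have hlt : ∀ m : ℕ, m < p ^ m := fun m => Nat.lt_pow_self (by omega)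
  have hmono : ∀ {a b : ℕ}, a ≤ b → p ^ a ≤ p ^ b := fun h => Nat.pow_le_pow_right (by omega) h
  have hp1 : ∀ m, 1 ≤ p ^ m := fun m => Nat.one_le_pow _ _ (by omega)
  have h2W : 2 * W ≤ p ^ W := (two_mul_le_pow W hW1).trans (Nat.pow_le_pow_left hp W)
  rw [← hW] at ht1
  have hn2 : n * n ≤ p ^ (n * n) := (hlt _).le
  -- bound for S1 p^t1
  have hS : S1 * p ^ t1 ≤ p ^ (6 * W + 1) := by
    have h1 : p ^ s * (n * n) ≤ p ^ W := by
      calc p ^ s * (n * n) ≤ p ^ s * p ^ (n * n) := Nat.mul_le_mul_left _ hn2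
        _ = p ^ (s + n * n) := by rw [pow_add]
        _ ≤ p ^ W := hmono (by omega)
    calc S1 * p ^ t1 = p ^ (t1 + 1) * t1 * (p ^ s * (n * n)) * p ^ t1 := by rw [hS1]; ring
      _ ≤ p ^ (t1 + 1) * p ^ W * p ^ W * p ^ t1 := by
        gcongr
        rw [ht1]; exact h2W
      _ = p ^ (6 * W + 1) := by rw [← pow_add, ← pow_add, ← pow_add]; congr 1; omega
  have hT : (n * n) * p ^ (n + 2) ≤ p ^ (6 * W + 1) := by
    calc (n * n) * p ^ (n + 2) ≤ p ^ (n * n) * p ^ (n + 2) := Nat.mul_le_mul_right _ hn2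
      _ = p ^ (n * n + (n + 2)) := by rw [← pow_add]
      _ ≤ p ^ (6 * W + 1) := hmono (by omega)
  obtain ⟨J1, hJ1⟩ : ∃ J1, J1 = 1 + S1 * p ^ t1 + (n * n) * p ^ (n + 2) := ⟨_, rfl⟩
  have hJ : J1 ≤ p ^ (6 * W + 3) := by
    have h1 := hp1 (6 * W + 1)
    have h2 : 3 * p ^ (6 * W + 1) ≤ p ^ (6 * W + 3) := by
      have : 4 ≤ p ^ 2 := by
        calc 4 = 2 ^ 2 := by norm_num
          _ ≤ p ^ 2 := Nat.pow_le_pow_left hp 2
      calc 3 * p ^ (6 * W + 1) ≤ p ^ 2 * p ^ (6 * W + 1) := Nat.mul_le_mul_right _ (by omega)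
        _ = p ^ (6 * W + 3) := by rw [← pow_add]; congr 1; omega
    omega
  have hJpos : 1 ≤ J1 := by omega
  have hn1 : n + 1 ≤ p ^ W := by
    have := hlt n
    have h3 : p ^ n ≤ p ^ W := hmono (by omega)
    omega
  have hb : 2 * (n + 2 * (n + 1) * J1 + 1) ≤ p ^ (7 * W + 6) := by
    have h8 : 8 ≤ p ^ 3 := by
      calc 8 = 2 ^ 3 := by norm_num
        _ ≤ p ^ 3 := Nat.pow_le_pow_left hp 3
    have hmul : n + 1 ≤ (n + 1) * J1 := Nat.le_mul_of_pos_right _ hJpos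
    calc 2 * (n + 2 * (n + 1) * J1 + 1) = 2 * (n + 1) + 4 * ((n + 1) * J1) := by ring
      _ ≤ 8 * ((n + 1) * J1) := by omega
      _ ≤ p ^ 3 * (p ^ W * p ^ (6 * W + 3)) := by gcongr
      _ = p ^ (7 * W + 6) := by rw [← pow_add, ← pow_add]; congr 1; omega
  have hr' : 1 + (n * n) * p ^ r ≤ p ^ (W + 1) := by
    have h1 : (n * n) * p ^ r ≤ p ^ W := by
      calc (n * n) * p ^ r ≤ p ^ (n * n) * p ^ r := Nat.mul_le_mul_right _ hn2
        _ = p ^ (n * n + r) := by rw [pow_add]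
        _ ≤ p ^ W := hmono (by omega)
    have h2 : 2 * p ^ W ≤ p ^ (W + 1) := by
      rw [pow_succ, mul_comm]
      exact Nat.mul_le_mul_left _ hp
    have := hp1 W
    omega
  obtain ⟨A, hA⟩ : ∃ A, A = 8 * (r + 2) * (W + 1) := ⟨_, rfl⟩
  have hA' : A = 8 * (r * W) + 8 * r + 16 * W + 16 := by rw [hA]; ring
  have hrW : W ≤ r * W := Nat.le_mul_of_pos_left _ hr
  have hAb : 2 * (7 * W + 6) ≤ A := by omega
  have hrr : (r - 1) * (7 * W + 6 + (W + 1) + 1) + (7 * W + 6 + (W + 1)) ≤ A := by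
    obtain ⟨r0, rfl⟩ : ∃ r0, r = r0 + 1 := ⟨r - 1, by omega⟩
    rw [hA', Nat.add_sub_cancel]
    nlinarith
  have h2n : 1 ≤ 2 ^ n := Nat.one_le_two_pow
  have hn2n : n ≤ 2 ^ n := Nat.lt_two_pow_self.le
  have hWr : r ≤ W := by omega
  refine ⟨n + 2, J1, 7 * W + 6, W + 1, A, ?_, hJ1, by omega, hb, hr', hAb, ?_, by omega, by omega,
    ?_, ?_, by omega, by omega, ?_, ?_, ?_⟩
  · have h1 : ∀ m : ℕ, m + 3 ≤ 2 ^ (m + 2) := by
      intro m
      induction m with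
      | zero => norm_num
      | succ m ih => rw [show m + 1 + 2 = (m + 2) + 1 by ring, pow_succ]; omega
    exact (h1 n).trans (Nat.pow_le_pow_left hp _)
  · have h1 : 2 * (n + 1) * J1 ≤ p ^ (7 * W + 6) := by
      refine le_trans ?_ hb
      have : 2 * (n + 2 * (n + 1) * J1 + 1) = 2 * n + 2 + 2 * (2 * (n + 1) * J1) := by ring
      omega
    exact h1.trans (hmono (by omega))
  · have : n ≤ W := hnn.trans hnW
    omega
  · have h1 : 2 * J1 ≤ p ^ (7 * W + 6) := by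
      refine le_trans ?_ hb
      have h3 : J1 ≤ (n + 1) * J1 := Nat.le_mul_of_pos_left _ (by omega)
      have : 2 * (n + 2 * (n + 1) * J1 + 1) = 2 * n + 2 + 4 * ((n + 1) * J1) := by ring
      omega
    exact h1.trans (hmono (by omega))
  · have : n ≤ W := hnn.trans hnW
    omega
  · unfold NN
    rw [← hW]
    apply Nat.pow_le_pow_left
    have h1 : A + (7 * W + 6) + r ≤ 8 * ((r + 3) * (W + 1)) := by
      rw [hA']
      nlinarith
    have h2 : r + 2 ≤ 2 ^ n * ((r + 3) * (W + 1)) := by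
      calc r + 2 ≤ 1 * ((r + 3) * 1) := by omega
        _ ≤ 2 ^ n * ((r + 3) * (W + 1)) := by
          gcongr
          omega
    calc 2 ^ n * (A + (7 * W + 6) + r) + r + 2
        ≤ 2 ^ n * (8 * ((r + 3) * (W + 1))) + 2 ^ n * ((r + 3) * (W + 1)) := by
          have := Nat.mul_le_mul_left (2 ^ n) h1
          omega
      _ = 9 * 2 ^ n * (r + 3) * (W + 1) := by ring
  · unfold NN
    rw [← hW, hA]
    have h1 : n * (8 * (r + 2) * (W + 1)) + 1 ≤ 9 * 2 ^ n * (r + 3) * (W + 1) := by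
      have h3 : n * (8 * (r + 2) * (W + 1)) ≤ 8 * (2 ^ n * ((r + 3) * (W + 1))) := by
        calc n * (8 * (r + 2) * (W + 1)) = 8 * (n * ((r + 2) * (W + 1))) := by ring
          _ ≤ 8 * (2 ^ n * ((r + 3) * (W + 1))) := by gcongr; omega
      have h4 : 1 ≤ 2 ^ n * ((r + 3) * (W + 1)) := Nat.one_le_iff_ne_zero.2 (by positivity)
      calc _ ≤ 8 * (2 ^ n * ((r + 3) * (W + 1))) + 2 ^ n * ((r + 3) * (W + 1)) := by omega
        _ = _ := by ring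
    exact h1.trans (Nat.le_self_pow two_ne_zero _)

/-- crude solution of `p ^ t - 1 ≤ C t` -/
lemma bound_t (p : ℕ) (hp : 2 ≤ p) (e t : ℕ) (he : 2 ≤ e) (h : p ^ t ≤ p ^ e * t) : t ≤ 2 * e := by
  by_contra hcon
  push Not at hcon
  -- t ≥ 2e+1 ≥ 5 ; p^t ≤ p^e t so p^(t-e) ≤ t, but t - e ≥ (t+1)/2
  have h1 : p ^ (t - e) ≤ t := by
    have h2 : p ^ e * p ^ (t - e) ≤ p ^ e * t := by
      rw [← pow_add, Nat.add_sub_cancel' (by omega)]
      exact h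
    exact Nat.le_of_mul_le_mul_left h2 (by positivity)
  have h3 : 2 ^ (t - e) ≤ t := (Nat.pow_le_pow_left hp _).trans h1
  obtain ⟨u, hu⟩ : ∃ u, u = t - e := ⟨_, rfl⟩
  have h4 : t ≤ 2 * u - 1 := by omega
  rw [← hu] at h3
  have h5 : 2 * u ≤ 2 ^ u := two_mul_le_pow u (by omega)
  omega

end Pool.Agent.Y794.DX
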