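import Pool.Agent.TH923.DM.Rig
import Pool.Agent.Y794.DX.P

/-!
# The rigidity lemma with an explicit bound
-/

set_option autoImplicit false

namespace Pool.Agent.Y794.DX

open Finset Pool.Agent.TH923.DM Pool.Agent.TH923.DM.RigX

universe w

/-- the rigidity lemma, explicit -/
def S_RIGE : Prop := ∀ (p : ℕ) [Fact p.Prime] (n r a b : ℕ), 1 ≤ r →
  ∀ (L : Type w) [Field L] [CharP L p] [Algebra (ZMod p) L] (G : Type w) [Group G] [Fintype G]
  [MulSemiringAction G L], Fintype.card G ≤ n → ∀ (D : Derivation ℤ L L) (g : ℕ → L), g r ≠ 0 →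
  (∀ i j : ℕ, i ≠ j → (g 0) ^ (p ^ i) ≠ (g 0) ^ (p ^ j)) →
  ∀ (M : Submodule (ZMod p) L) [FiniteDimensional (ZMod p) M], (∀ x ∈ M, ev p g r x ∈ M) →
  (2 ^ n * (a + b + r) + r + 2) ^ 2 ≤ Module.finrank (ZMod p) M → ∀ c : G → ℕ → L,
  (∀ x ∈ M, (D x) ^ (p ^ b) = ∑ σ : G, ∑ l ∈ Finset.range a, c σ l * (σ • x) ^ (p ^ l)) →
  D (g 0) = 0 ∧ ∃ α : L, ∀ x ∈ M, D x = α * x

section Final

variable (p : ℕ) [hp : Fact p.Prime]

/-- the base case, explicit -/
lemma baseE (r : ℕ) (hr : 1 ≤ r) (J : ℕ) : ∀ B : ℕ, ∀ (L : Type w) [Field L] [CharP L p]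
    [Algebra (ZMod p) L] (D : Derivation ℤ L L) (g : ℕ → L) (M : Submodule (ZMod p) L)
    [FiniteDimensional (ZMod p) M], Dat p r D g M →
    B + (J + 1) * (J + r + 1) + 1 ≤ Module.finrank (ZMod p) M →
    ∀ (Q F : ℕ → L), Bd Q J → Q ≠ 0 → Bd F B →
    (∀ x ∈ M, ev p Q (J + B) (D x) = ev p F (J + B) x) →
    D (g 0) = 0 ∧ ∃ α : L, ∀ x ∈ M, D x = α * x := by
  induction J with
  | zero =>
    intro B L _ _ _ D g M _ hd hN Q F hQ hQ0 hF hrel
    rcases base_step hr hd hQ hQ0 hF (by omega) hrel with h | ⟨_, _, h, _⟩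
    · exact h
    · omega
  | succ J ih =>
    intro B
    have hN := ih (J + 1 + B + r)
    intro L _ _ _ D g M _ hd hNM Q F hQ hQ0 hF hrel
    have h0 : (J + 1 + 1) * (J + 1 + r + 1) = (J + 1) * (J + r + 1) + (J + 1) + (J + r + 2) := by
      ring
    have hN1 : J + 1 + B + r + (J + 1) * (J + r + 1) + 1 ≤ Module.finrank (ZMod p) M := by
      omega
    rcases base_step hr hd hQ hQ0 hF (by omega) hrel with h | ⟨Q', F', _, hQ', hQ'0, hF', h⟩
    · exact h
    · refine hN L D g M hd hN1 Q' F' (by simpa using hQ') hQ'0 hF' fun x hx => ?_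
      have h1 := h x hx
      have e1 : ev p Q' (J + (J + 1 + B + r)) (D x) = ev p Q' (J + 1 + B + r) (D x) :=
        ev_bd2 p hQ' (by omega) (by omega) _
      have e2 : ev p F' (J + (J + 1 + B + r)) x = ev p F' (J + 1 + B + r) x :=
        ev_bd2 p hF' (by omega) (by omega) _
      rw [e1, e2, h1]

/-- the general statement -/
lemma genE (r : ℕ) (hr : 1 ≤ r) (k : ℕ) : ∀ B : ℕ, ∀ (L : Type w) [Field L] [CharP L p]
    [Algebra (ZMod p) L] (D : Derivation ℤ L L) (g : ℕ → L) (M : Submodule (ZMod p) L)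
    [FiniteDimensional (ZMod p) M], Dat p r D g M →
    (2 ^ k * (B + r) + r + 2) ^ 2 ≤ Module.finrank (ZMod p) M →
    ∀ (s : Fin k → (L →+* L)) (Q F0 : ℕ → L) (F : Fin k → ℕ → L), Bd Q B → Q ≠ 0 → Bd F0 B →
    (∀ i, Bd (F i) B) →
    (∀ x ∈ M, ev p Q B (D x) = ev p F0 B x + ∑ i, ev p (F i) B (s i x)) →
    D (g 0) = 0 ∧ ∃ α : L, ∀ x ∈ M, D x = α * x := by
  induction k with
  | zero =>
    intro B L _ _ _ D g M _ hd hNM s Q F0 F hQ hQ0 hF0 _ hrel
    refine baseE.{w} p r hr B B L D g M hd (le_trans ?_ hNM) Q F0 hQ hQ0 hF0 fun x hx => ?_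
    · rw [pow_zero, one_mul]
      nlinarith
    have h1 := hrel x hx
    rw [univ_eq_empty, sum_empty, add_zero] at h1
    rw [ev_bd p hQ (show B ≤ B + B by omega), ev_bd p hF0 (show B ≤ B + B by omega), h1]
  | succ k ih =>
    intro B
    have hN1 := ih B
    have hN2 := ih (2 * B + r)
    intro L _ _ _ D g M _ hd hNM s Q F0 F hQ hQ0 hF0 hF hrel
    have hNM1 : (2 ^ k * (B + r) + r + 2) ^ 2 ≤ Module.finrank (ZMod p) M := by
      refine le_trans ?_ hNM
      gcongr
      · norm_num
      · omega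
    have hNM2 : (2 ^ k * (2 * B + r + r) + r + 2) ^ 2 ≤ Module.finrank (ZMod p) M := by
      refine le_trans (le_of_eq ?_) hNM
      ring
    by_cases hz : F 0 = 0
    · refine hN1 L D g M hd hNM1 (fun i => s i.succ) Q F0 (fun i => F i.succ) hQ hQ0 hF0
        (fun i => hF _) fun x hx => ?_
      rw [hrel x hx, Fin.sum_univ_succ, hz]
      have : ev p (0 : ℕ → L) B (s 0 x) = 0 := by
        unfold ev
        exact sum_eq_zero fun i _ => by simp
      rw [this, zero_add]
    · obtain ⟨d, hdB, hFd, hFd0⟩ := exists_top (hF 0) hz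
      obtain ⟨e, heB, hQe, hQe0⟩ := exists_top hQ hQ0
      have hsub := subst hd s hQ hF0 hF hrel 0 (B' := B + r) le_rfl
      simp only [zero_mul, sub_zero] at hsub
      set Q' : ℕ → L := fun j => Q j * (g 0) ^ p ^ j with hQ'
      set F0' : ℕ → L := fun n => cp p F0 g n - cp p Q (fun i => D (g i)) n with hF0'
      have hDg : Bd (fun i => D (g i)) r := fun i hi => by simp [hd.bd i hi]
      have hsg : ∀ i, Bd (fun j => s i (g j)) r := fun i j hj => by simp [hd.bd j hj]
      have hQ'b : Bd Q' e := fun j hj => by simp [hQ', hQe j hj]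
      have hF0'b : Bd F0' (B + r) := (cp_bd p hF0 hd.bd).sub (cp_bd p hQ hDg)
      have hF'b : ∀ i, Bd (cp p (F i) fun j => s i (g j)) (B + r) := fun i =>
        cp_bd p (hF i) (hsg i)
      have hF'0 : Bd (cp p (F 0) fun j => s 0 (g j)) (d + r) := cp_bd p hFd (hsg 0)
      have hF'0t : cp p (F 0) (fun j => s 0 (g j)) (d + r) ≠ 0 :=
        cp_top_ne p hFd (hsg 0) hFd0 ((map_ne_zero (s 0)).2 hd.top)
      obtain ⟨β, γ, t, htd, hγ, hγ0, hβ, hβ0, hcp⟩ := ore p hFd hFd0 hF'0 hF'0t
      have hQ'e : Bd Q' (B + r) := hQ'b.mono (by omega)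
      refine hN2 L D g M hd hNM2 (fun i => s i.succ)
        (fun n => cp p β Q n - cp p γ Q' n) (fun n => cp p β F0 n - cp p γ F0' n)
        (fun i n => cp p β (F i.succ) n - cp p γ (cp p (F i.succ) fun j => s i.succ (g j)) n)
        (Bd.sub ((cp_bd p hβ hQ).mono (by omega)) ((cp_bd p hγ hQ'e).mono (by omega))) ?_
        (Bd.sub ((cp_bd p hβ hF0).mono (by omega)) ((cp_bd p hγ hF0'b).mono (by omega)))
        (fun i => Bd.sub ((cp_bd p hβ (hF _)).mono (by omega))
          ((cp_bd p hγ (hF'b _)).mono (by omega))) ?_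
      · intro h0
        have h1 := congrFun h0 (t + r + e)
        have h2 : cp p γ Q' (t + r + e) = 0 := cp_bd p hγ hQ'b _ (by omega)
        have h3 : cp p β Q (t + r + e) ≠ 0 := cp_top_ne p hβ hQe hβ0 hQe0
        simp only [Pi.zero_apply] at h1
        rw [h2, sub_zero] at h1
        exact h3 h1
      · intro x hx
        have r1 := hrel x hx
        have r2 := hsub x hx
        rw [evf_sub, evf_sub]
        simp_rw [evf_sub]
        rw [ev_cp p hβ hQ (by omega) (show t + r ≤ B + r by omega) le_rfl,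
          ev_cp p hγ hQ'e (by omega) (show t ≤ B by omega) le_rfl,
          ev_cp p hβ hF0 (by omega) (show t + r ≤ B + r by omega) le_rfl,
          ev_cp p hγ hF0'b (by omega) (show t ≤ B by omega) le_rfl]
        have h1 : ∀ i : Fin k, ev p (cp p β (F i.succ)) (2 * B + r) (s i.succ x) =
            ev p β (B + r) (ev p (F i.succ) B (s i.succ x)) := fun i =>
          ev_cp p hβ (hF _) (by omega) (by omega) le_rfl _
        have h2 : ∀ i : Fin k, ev p (cp p γ (cp p (F i.succ) fun j => s i.succ (g j))) (2 * B + r)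
            (s i.succ x) =
            ev p γ B (ev p (cp p (F i.succ) fun j => s i.succ (g j)) (B + r) (s i.succ x)) :=
          fun i => ev_cp p hγ (hF'b _) (by omega) (by omega) le_rfl _
        simp_rw [h1, h2]
        rw [r1, r2, ev_add, ev_add, ← evL_apply p β (B + r) (∑ i, _),
          ← evL_apply p γ B (∑ i, _), map_sum, map_sum, Fin.sum_univ_succ, Fin.sum_univ_succ,
          sum_sub_distrib]
        simp_rw [evL_apply]
        have h3 : ev p β (B + r) (ev p (F 0) B (s 0 x)) =
            ev p γ B (ev p (cp p (F 0) fun j => s 0 (g j)) (B + r) (s 0 x)) := by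
          rw [← ev_cp p hβ hFd (m := 2 * B + r) (by omega) (show t + r ≤ B + r by omega) hdB,
            ← ev_cp p hγ hF'0 (m := 2 * B + r) (by omega) (show t ≤ B by omega)
              (show d + r ≤ B + r by omega), hcp]
        rw [h3]
        ring

end Final

open RigX in
theorem rigE : S_RIGE.{w} := by
  intro p _ n r a b hr
  have hN := genE.{w} p r hr
  intro L _ _ _ G _ _ _ hG D g hgr hg0 M _ hM hNM c hc
  have hpp : p.Prime := Fact.out
  set g' : ℕ → L := fun i => if i ≤ r then g i else 0 with hg'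
  have hev : ∀ x, ev p g' r x = ev p g r x := by
    intro x
    unfold ev
    refine sum_congr rfl fun i hi => ?_
    have : i ≤ r := by have := mem_range.1 hi; omega
    simp [hg', this]
  have hd : Dat p r D g' M := by
    refine ⟨fun i hi => by simp [hg', not_le.2 hi], by simpa [hg'] using hgr, ?_, ?_⟩
    · intro i j hij
      simpa [hg'] using hg0 i j hij
    · intro x hx
      rw [hev]; exact hM x hx
  have hk : (2 ^ Fintype.card G * ((a + b) + r) + r + 2) ^ 2 ≤ Module.finrank (ZMod p) M := by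
    refine le_trans ?_ hNM
    gcongr
    norm_num
  set φ := Fintype.equivFin G with hφ
  have key := hN (Fintype.card G) (a + b) L D g' M hd hk
    (fun i => MulSemiringAction.toRingHom G L (φ.symm i))
    (fun i => if i = b then 1 else 0) 0 (fun i l => if l < a then c (φ.symm i) l else 0)
    (fun i hi => if_neg (by omega)) (fun h => by
      have := congrFun h b
      simp at this) (fun i _ => rfl) (fun i l hl => if_neg (by omega)) (fun x hx => by
      have e1 : ev p (fun i => if i = b then (1 : L) else 0) (a + b) (D x) = (D x) ^ p ^ b := by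
        unfold ev
        rw [sum_eq_single b]
        · simp
        · intro i _ hi; simp [hi]
        · intro h; exact absurd (mem_range.2 (by omega)) h
      have e2 : ev p (0 : ℕ → L) (a + b) x = 0 := by
        unfold ev
        exact sum_eq_zero fun i _ => by simp
      have e3 : ∀ (σ : G) (z : L), ev p (fun l => if l < a then c σ l else 0) (a + b) z =
          ∑ l ∈ range a, c σ l * z ^ p ^ l := by
        intro σ z
        unfold ev
        rw [← sum_subset (range_subset_range.2 (show a ≤ a + b + 1 by omega))]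
        · refine sum_congr rfl fun l hl => ?_
          show (if l < a then c σ l else 0) * z ^ p ^ l = _
          rw [if_pos (mem_range.1 hl)]
        · intro l _ hl
          show (if l < a then c σ l else 0) * z ^ p ^ l = 0
          rw [if_neg fun h => hl (mem_range.2 h), zero_mul]
      rw [e1, e2, zero_add, hc x hx, ← Equiv.sum_comp φ.symm]
      refine sum_congr rfl fun i _ => ?_
      rw [e3]
      rfl)
  simpa [hg'] using key

end Pool.Agent.Y794.DX
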