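import Pool.Agent.TH923.DM.SPC
import Pool.Agent.Y794.DX.P

/-!
# Explicit bound for the special finite places
-/

set_option autoImplicit false

namespace Pool.Agent.Y794.DX

open Polynomial Pool.Agent.TH923.DM

universe w

lemma bound_t' (p : ℕ) (hp : 1 < p) (r s E t : ℕ) (hr : 1 ≤ r)
    (h : (p : ℝ) ^ t - 1 ≤ (((p : ℝ) ^ r - 1) * (p ^ s * E)) * t) : t ≤ 2 * (r + s + E) := by
  rcases Nat.eq_zero_or_pos t with rfl | ht
  · omega
  rcases Nat.eq_zero_or_pos E with rfl | hE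
  · exfalso
    have h1 : (1 : ℝ) < (p : ℝ) ^ t := one_lt_pow₀ (by exact_mod_cast hp) (by omega)
    simp at h
    linarith
  refine bound_t p hp (r + s + E) t (by omega) ?_
  have h1 : (1 : ℝ) ≤ (p : ℝ) ^ s * E * t := by
    have e1 : (1 : ℝ) ≤ (p : ℝ) ^ s := one_le_pow₀ (by exact_mod_cast hp.le)
    have e2 : (1 : ℝ) ≤ E := by exact_mod_cast hE
    have e3 : (1 : ℝ) ≤ t := by exact_mod_cast ht
    have e4 : (1 : ℝ) ≤ (p : ℝ) ^ s * E := by nlinarith
    nlinarith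
  have h2 : (p : ℝ) ^ t ≤ (p : ℝ) ^ r * ((p : ℝ) ^ s * E * t) := by
    have e : (((p : ℝ) ^ r - 1) * (p ^ s * E)) * t = (p : ℝ) ^ r * ((p : ℝ) ^ s * E * t) -
        (p : ℝ) ^ s * E * t := by ring
    rw [e] at h
    linarith
  have h3 : (E : ℝ) ≤ (p : ℝ) ^ E := by
    exact_mod_cast (Nat.lt_pow_self hp (n := E)).le
  have h4 : (p : ℝ) ^ t ≤ (p : ℝ) ^ (r + s + E) * t := by
    refine h2.trans ?_
    rw [pow_add, pow_add]
    have e1 : (0 : ℝ) ≤ (p : ℝ) ^ r * (p : ℝ) ^ s * t := by positivity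
    calc (p : ℝ) ^ r * ((p : ℝ) ^ s * E * t) = (p : ℝ) ^ r * (p : ℝ) ^ s * t * E := by ring
      _ ≤ (p : ℝ) ^ r * (p : ℝ) ^ s * t * (p : ℝ) ^ E := mul_le_mul_of_nonneg_left h3 e1
      _ = _ := by ring
  exact_mod_cast h4

/-- bound for the special finite places, explicit -/
def S_SPCE : Prop := ∀ (p : ℕ) [Fact p.Prime] (r E s : ℕ), 1 ≤ r →
  ∀ (k : Type w) [Field k] [IsAlgClosed k] [CharP k p] (L : Type w) [Field L] [CharP L p]
  [Algebra (ZMod p) L] [Algebra (RatFunc k) L] (P : PD k L E) (g : ℕ → L),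
  g 0 = (algebraMap (RatFunc k) L RatFunc.X) ^ (p ^ s) →
  ∀ (M : Submodule (ZMod p) L) [FiniteDimensional (ZMod p) M], (∀ x ∈ M, ev p g r x ∈ M) →
  ∀ c : P.Pl → ℝ, (∀ v, Loc p (P.u v) g r (c v)) →
  (∀ v, ¬ (P.u v (algebraMap (RatFunc k) L RatFunc.X) < 0) →
    Module.finrank (ZMod p) (levG p (P.isOrd v) M (c v)) ≤ 2 * (r + s + E)) ∧
  ∀ T : Finset P.Pl, (∀ v ∈ T, ¬ (P.u v (algebraMap (RatFunc k) L RatFunc.X) < 0) ∧
    levG p (P.isOrd v) M (c v) ≠ ⊥) →
    T.card ≤ p ^ (2 * (r + s + E) + 1) * (2 * (r + s + E) * p ^ s) * E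

open SPC in
theorem spcE (hS : S_SPEC.{w}) : S_SPCE.{w} := by
  intro p _ r E s hr
  have hp1 : 1 < p := (Fact.out : p.Prime).one_lt
  have hp1' : (1 : ℝ) < p := by exact_mod_cast hp1
  have hpr : (0 : ℝ) < (p : ℝ) ^ r - 1 := by
    have := one_lt_pow₀ hp1' (by omega : r ≠ 0)
    linarith
  obtain ⟨t1, ht1e⟩ : ∃ t1, t1 = 2 * (r + s + E) := ⟨_, rfl⟩
  have ht1 : ∀ t : ℕ, (p : ℝ) ^ t - 1 ≤ (((p : ℝ) ^ r - 1) * (p ^ s * E)) * t → t ≤ t1 := by
    intro t ht
    rw [ht1e]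
    exact bound_t' p hp1 r s E t hr ht
  rw [← ht1e]
  intro k _ _ _ L _ _ _ _ P g hg M _ hM c hc
  have hX0 : algebraMap (RatFunc k) L RatFunc.X ≠ 0 := by
    rw [Ne, map_eq_zero_iff _ (algebraMap (RatFunc k) L).injective]
    exact RatFunc.X_ne_zero
  -- the special polynomial at `v`
  have key : ∀ v, ¬ (P.u v (algebraMap (RatFunc k) L RatFunc.X) < 0) →
      ∃ a : (ZMod p)[X], a ≠ 0 ∧
        a.natDegree = Module.finrank (ZMod p) (levG p (P.isOrd v) M (c v)) ∧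
        (((p : ℝ) ^ (Module.finrank (ZMod p) (levG p (P.isOrd v) M (c v))) - 1) /
          ((p : ℝ) ^ r - 1)) ≤
        P.u v (algebraMap (RatFunc k) L (algebraMap k[X] (RatFunc k) (Fp p s a))) := by
    intro v hv
    have hX : GE (P.u v) (algebraMap (RatFunc k) L RatFunc.X) 0 := by
      right
      exact_mod_cast not_lt.1 hv
    have hg0 : GE (P.u v) (g 0) 0 := by
      rw [hg]
      have h := hX.pow (P.isOrd v) (n := p ^ s) (pow_pos' p s).ne'
      rwa [mul_zero] at h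
    obtain ⟨a, ha1, ha2, ha3⟩ := hS p L (P.u v) (P.isOrd v) g r (c v) hr (hc v) hg0 M hM
    refine ⟨a, ha1.ne_zero, ha2, ?_⟩
    have hne : algebraMap (RatFunc k) L (algebraMap k[X] (RatFunc k) (Fp p s a)) ≠ 0 :=
      pl_ne (Fp_ne p s ha1.ne_zero)
    rw [hg, ← pl_Fp (k := k) p s a] at ha3
    exact ha3.ord hne
  have part1 : ∀ v, ¬ (P.u v (algebraMap (RatFunc k) L RatFunc.X) < 0) →
      Module.finrank (ZMod p) (levG p (P.isOrd v) M (c v)) ≤ t1 := by
    intro v hv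
    obtain ⟨a, ha1, ha2, ha3⟩ := key v hv
    refine ht1 _ ?_
    have h1 := sum_pl_le P (Fp p s a) (Fp_ne p s ha1) {v} (by
      intro w hw
      rw [Finset.mem_singleton.1 hw]
      exact hv)
    rw [Finset.sum_singleton, natDegree_Fp, ha2] at h1
    have h2 : (P.u v (algebraMap (RatFunc k) L (algebraMap k[X] (RatFunc k) (Fp p s a))) : ℝ) ≤
        (Module.finrank (ZMod p) (levG p (P.isOrd v) M (c v)) : ℝ) * (p : ℝ) ^ s * E := by
      exact_mod_cast h1
    have h3 := ha3.trans h2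
    rw [div_le_iff₀ hpr] at h3
    calc _ ≤ _ := h3
      _ = _ := by ring
  refine ⟨part1, ?_⟩
  intro T hT
  classical
  -- the finite set of all nonzero polynomials of degree at most `t1`
  set po : (Fin (t1 + 1) → ZMod p) → (ZMod p)[X] :=
    fun f => ∑ i : Fin (t1 + 1), C (f i) * X ^ (i : ℕ) with hpo
  set A : Finset (ZMod p)[X] :=
    (Finset.univ.image po).filter (fun a => a ≠ 0 ∧ a.natDegree ≤ t1) with hA
  have hAcard : A.card ≤ p ^ (t1 + 1) := by
    refine (Finset.card_filter_le _ _).trans (Finset.card_image_le.trans ?_)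
    rw [Finset.card_univ, Fintype.card_fun, Fintype.card_fin, ZMod.card]
  have hAmem : ∀ a : (ZMod p)[X], a ≠ 0 → a.natDegree ≤ t1 → a ∈ A := by
    intro a ha hd
    rw [hA, Finset.mem_filter]
    refine ⟨?_, ha, hd⟩
    rw [Finset.mem_image]
    refine ⟨fun i => a.coeff i, Finset.mem_univ _, ?_⟩
    show ∑ i : Fin (t1 + 1), C (a.coeff (i : ℕ)) * X ^ (i : ℕ) = a
    rw [Fin.sum_univ_eq_sum_range (fun i => C (a.coeff i) * X ^ i) (t1 + 1)]
    exact (a.as_sum_range_C_mul_X_pow' (by omega)).symm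
  set Φ : k[X] := ∏ a ∈ A, Fp p s a with hΦ
  have hΦ0 : Φ ≠ 0 := by
    rw [hΦ, Finset.prod_ne_zero_iff]
    intro a ha
    exact Fp_ne p s (Finset.mem_filter.1 ha).2.1
  have hΦd : Φ.natDegree ≤ p ^ (t1 + 1) * (t1 * p ^ s) := by
    rw [hΦ, natDegree_prod _ _ (fun a ha => Fp_ne p s (Finset.mem_filter.1 ha).2.1)]
    calc ∑ a ∈ A, (Fp (k := k) p s a).natDegree ≤ ∑ _a ∈ A, t1 * p ^ s := by
          refine Finset.sum_le_sum fun a ha => ?_
          rw [natDegree_Fp]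
          exact Nat.mul_le_mul_right _ (Finset.mem_filter.1 ha).2.2
      _ = A.card * (t1 * p ^ s) := by rw [Finset.sum_const, smul_eq_mul]
      _ ≤ _ := Nat.mul_le_mul_right _ hAcard
  have h1 := sum_pl_le P Φ hΦ0 T (fun v hv => (hT v hv).1)
  have h2 : ∀ v ∈ T, (1 : ℤ) ≤
      P.u v (algebraMap (RatFunc k) L (algebraMap k[X] (RatFunc k) Φ)) := by
    intro v hv
    obtain ⟨hv1, hv2⟩ := hT v hv
    have hX : GE (P.u v) (algebraMap (RatFunc k) L RatFunc.X) 0 := by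
      right
      exact_mod_cast not_lt.1 hv1
    rw [hΦ, map_prod, map_prod, (P.isOrd v).prod _ _
      (fun a ha => pl_ne (Fp_ne p s (Finset.mem_filter.1 ha).2.1))]
    obtain ⟨a, ha1, ha2, ha3⟩ := key v hv1
    have haA : a ∈ A := hAmem a ha1 (ha2 ▸ part1 v hv1)
    have hfr : Module.finrank (ZMod p) (levG p (P.isOrd v) M (c v)) ≠ 0 := by
      intro h0
      have hle : levG p (P.isOrd v) M (c v) ≤ M := fun x hx => hx.1
      have : FiniteDimensional (ZMod p) (levG p (P.isOrd v) M (c v)) :=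
        Submodule.finiteDimensional_of_le hle
      exact hv2 (Submodule.finrank_eq_zero.1 h0)
    have hpos : (0 : ℝ) < ((p : ℝ) ^ (Module.finrank (ZMod p)
        (levG p (P.isOrd v) M (c v))) - 1) / ((p : ℝ) ^ r - 1) := by
      refine div_pos ?_ hpr
      have := one_lt_pow₀ hp1' hfr
      linarith
    have h3 : (0 : ℝ) <
        P.u v (algebraMap (RatFunc k) L (algebraMap k[X] (RatFunc k) (Fp p s a))) :=
      hpos.trans_le ha3
    have h4 : (0 : ℤ) <
        P.u v (algebraMap (RatFunc k) L (algebraMap k[X] (RatFunc k) (Fp p s a))) := by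
      exact_mod_cast h3
    have h5 : P.u v (algebraMap (RatFunc k) L (algebraMap k[X] (RatFunc k) (Fp p s a))) ≤
        ∑ a ∈ A, P.u v (algebraMap (RatFunc k) L (algebraMap k[X] (RatFunc k) (Fp p s a))) := by
      refine Finset.single_le_sum (f := fun a => P.u v (algebraMap (RatFunc k) L
        (algebraMap k[X] (RatFunc k) (Fp p s a)))) (fun b hb => ?_) haA
      have hb0 : Fp (k := k) p s b ≠ 0 := Fp_ne p s (Finset.mem_filter.1 hb).2.1
      have := (pl_GE (P.isOrd v) (P.const v) hX (Fp p s b)).ord (pl_ne hb0)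
      exact_mod_cast this
    exact (show (1 : ℤ) ≤ _ by omega : (1 : ℤ) ≤ P.u v (algebraMap (RatFunc k) L
      (algebraMap k[X] (RatFunc k) (Fp p s a)))).trans h5
  have h3 : (T.card : ℤ) ≤
      ∑ v ∈ T, P.u v (algebraMap (RatFunc k) L (algebraMap k[X] (RatFunc k) Φ)) := by
    have := Finset.card_nsmul_le_sum T
      (fun v => P.u v (algebraMap (RatFunc k) L (algebraMap k[X] (RatFunc k) Φ))) 1 h2
    simpa using this
  have h4 : (Φ.natDegree : ℤ) * E ≤ ((p ^ (t1 + 1) * (t1 * p ^ s) * E : ℕ) : ℤ) := by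
    have h := Nat.mul_le_mul_right E hΦd
    exact_mod_cast h
  have h5 : (T.card : ℤ) ≤ ((p ^ (t1 + 1) * (t1 * p ^ s) * E : ℕ) : ℤ) :=
    h3.trans (h1.trans h4)
  exact_mod_cast h5

end Pool.Agent.Y794.DX
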