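import Pool.Agent.TH923.DM.All
import Pool.Agent.Y794.DX.Core

/-!
# The claim with an explicit bound
-/

set_option autoImplicit false

namespace Pool.Agent.Y794.DX

open Polynomial Pool.Agent Pool.Agent.TH923 Pool.Agent.TH923.DM

universe w v

/-- the main statement for Galois extensions of `k(T)`, `k` algebraically closed -/
def S_CLAIME : Prop := ∀ (p : ℕ) [Fact p.Prime] (r n s : ℕ), 1 ≤ r →
  ∀ (k : Type w) [Field k] [IsAlgClosed k] [CharP k p] (L : Type w) [Field L] [CharP L p]
  [Algebra (ZMod p) L] [Algebra (RatFunc k) L] [FiniteDimensional (RatFunc k) L]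
  [IsGalois (RatFunc k) L], Module.finrank (RatFunc k) L ≤ n → ∀ g : ℕ → L,
  g 0 = (algebraMap (RatFunc k) L RatFunc.X) ^ (p ^ s) → g r ≠ 0 →
  ∀ (M : Submodule (ZMod p) L) [FiniteDimensional (ZMod p) M], (∀ x ∈ M, ev p g r x ∈ M) →
  Module.finrank (ZMod p) M ≤ NN r n s

theorem claimE (hCORE : S_COREE.{w}) (hDER : S_DER.{w}) (hDESC : S_DESC.{w}) : S_CLAIME.{w} := by
  intro p _ r n s hr
  induction s with
  | zero =>
    have hN := hCORE p r n 0 hr
    intro k _ _ _ L _ _ _ _ _ _ hnL g hg0 hgr M _ hM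
    by_contra hcon
    rw [not_le] at hcon
    obtain ⟨D, hD, _⟩ := hDER p k L
    obtain ⟨h1, _⟩ := hN k L hnL D hD g hg0 hgr M hM hcon.le
    rw [hg0, pow_zero, pow_one, hD, ← RatFunc.algebraMap_X, Y0.ratD_alg, derivative_X, map_one,
      map_one] at h1
    exact one_ne_zero h1
  | succ s ih =>
    have hN := hCORE p r n (s + 1) hr
    intro k _ _ _ L _ _ _ _ _ _ hnL g hg0 hgr M _ hM
    by_contra hcon
    rw [not_le] at hcon
    obtain ⟨D, hD, hker⟩ := hDER p k L
    obtain ⟨h1, α, hα⟩ := hN k L hnL D hD g hg0 hgr M hM hcon.le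
    have hr2 : r < Module.finrank (ZMod p) M := lt_of_le_of_lt (r_le_NN r n (s + 1)) hcon
    obtain ⟨g', M', h2, h3, h4, h5, h6⟩ := hDESC p L D hker g r hgr h1 M hM hr2 α hα
    have h7 : g' 0 = (algebraMap (RatFunc k) L RatFunc.X) ^ (p ^ s) := by
      apply frobenius_inj L p
      rw [frobenius_def, frobenius_def, h2, hg0, ← pow_mul, pow_succ]
    have h8 := ih k L hnL g' h7 h3 M' h5
    rw [h6] at h8
    have h9 := NN_mono (r := r) (n := n) (show s ≤ s + 1 by omega)
    omega

/-- the general statement, explicit -/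
def S_GENE : Prop := ∀ (p : ℕ) [Fact p.Prime] (r d : ℕ), 1 ≤ r →
  ∀ (k : Type w) [Field k] [CharP k p] (L : Type v) [Field L] [CharP L p]
  [Algebra (ZMod p) L] [Algebra (RatFunc k) L] [FiniteDimensional (RatFunc k) L],
  Module.finrank (RatFunc k) L ≤ d → ∀ g : ℕ → L,
  g 0 = algebraMap (RatFunc k) L RatFunc.X → g r ≠ 0 →
  ∀ (M : Submodule (ZMod p) L) [FiniteDimensional (ZMod p) M], (∀ x ∈ M, ev p g r x ∈ M) →
  Module.finrank (ZMod p) M ≤ NN r d.factorial d

open Pool.Agent.TH811.DM in
theorem redE (hclaim : S_CLAIME.{w}) : S_GENE.{w, v} := by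
  intro p hp r d hr
  have hN := hclaim p r d.factorial d hr
  intro k _ _ L _ _ _ _ _ hd g hg0 hgr M _ hM
  set kb := AlgebraicClosure k with hkb
  have : CharP kb p := charP_of_injective_algebraMap (algebraMap k kb).injective p
  have : CharP (RatFunc kb) p :=
    charP_of_injective_ringHom (algebraMap kb (RatFunc kb)).injective p
  have : CharP (AlgebraicClosure (RatFunc kb)) p :=
    charP_of_injective_algebraMap (algebraMap (RatFunc kb) _).injective p
  obtain ⟨i, hi, F', h1, h2, h3, h4⟩ := exField (L := L) (K := RatFunc kb)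
    (Om := AlgebraicClosure (RatFunc kb)) (ratMap k kb) p d hd
  have : CharP F' p := charP_of_injective_algebraMap (algebraMap (RatFunc kb) F').injective p
  let : Algebra (ZMod p) F' := ZMod.algebra F' p
  have : ExpChar (AlgebraicClosure (RatFunc kb)) p := ExpChar.prime (Fact.out : p.Prime)
  let ψ : L →+* F' := RingHom.codRestrict
    ((iterateFrobenius (AlgebraicClosure (RatFunc kb)) p d).comp i) F'.toSubfield.toSubring
    (fun x => by
      show (iterateFrobenius (AlgebraicClosure (RatFunc kb)) p d) (i x) ∈ F'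
      rw [iterateFrobenius_def]
      exact h4 x)
  have hψ : ∀ x, ((ψ x : F') : AlgebraicClosure (RatFunc kb)) = (i x) ^ (p ^ d) := by
    intro x
    show (iterateFrobenius (AlgebraicClosure (RatFunc kb)) p d) (i x) = _
    rw [iterateFrobenius_def]
  let ψl : L →ₗ[ZMod p] F' := (ψ : L →+ F').toZModLinearMap p
  have hψl : ∀ x, ψl x = ψ x := fun x => rfl
  have hψinj : Function.Injective ψl := ψ.injective
  have hev : ∀ x, TH923.DM.ev p (fun j => ψ (g j)) r (ψ x) = ψ (TH923.DM.ev p g r x) := by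
    intro x
    unfold TH923.DM.ev
    rw [map_sum]
    refine Finset.sum_congr rfl fun j _ => ?_
    rw [map_mul, map_pow]
  have h5 := hN kb F' h3 (fun j => ψ (g j)) (by
    apply Subtype.ext
    rw [hψ, hg0, hi, ratMap_X]
    rfl) (by
    intro h
    exact hgr (by simpa using h)) (M.map ψl) (by
    rintro _ ⟨x, hx, rfl⟩
    refine ⟨TH923.DM.ev p g r x, hM x hx, ?_⟩
    rw [hψl, hψl, hev])
  have h6 : Module.finrank (ZMod p) (M.map ψl) = Module.finrank (ZMod p) M :=
    (Submodule.equivMapOfInjective ψl hψinj M).finrank_eq.symm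
  rw [← h6]
  exact h5



theorem coreE_all : S_COREE.{w} :=
  coreE rigE lemROWS lemPTS lemDET lemPD (spcE lemSPEC) TH296.DM.lemNAB
    TH692.DMLOC.lemLOC TH692.DMLOC.lemLOCinf lemADAPT lemIND (lemDEC (lemL1 lemN))
    (lemDECinf (lemLinf lemN))

/-- The general statement with an explicit bound. -/
theorem genE_all : S_GENE.{w, v} :=
  redE (claimE coreE_all TH397.DM.lemDER TH761.DMDesc.lemDESC)

end Pool.Agent.Y794.DX
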